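import Pool.Agent.Work.MP_b27c98_an.PhiC

set_option autoImplicit false

/-!
# Positive minimal graphs with zero boundary values: no growth bound

The plane is `ℂ`. For every nondecreasing function `Φ : ℝ → ℝ` there are a domain `D` (open,
connected, unbounded), whose boundary is one properly embedded regular real analytic curve, and a
solution `u` on `D` in the sense of the problem (of class `C²` in `D`, continuous on the closure,
positive in `D`, zero on the boundary, `div (∇u / √(1 + |∇u|²)) = 0` in `D`), such that the maximum
function `M(r)`, which is finite for every `r`, satisfies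

* `M(r) > exp (C r)` for arbitrarily large `r`, for every `C > 0` (the negated form of Q1), and
* `M(r) > Φ(r)` for arbitrarily large `r`.
-/

namespace Pool.Agent.Results.MP_b27c98_an.NoGrowthBound

open PoolB27

/-- For every nondecreasing `Φ` there is a solution `u` on a domain `D` bounded by one properly
embedded analytic curve whose maximum function exceeds every `exp (C r)`, and `Φ`, for arbitrarily
large `r`. -/
theorem result (Φ : ℝ → ℝ) (hΦ : Monotone Φ) :
    ∃ (D : Set ℂ) (u : ℂ → ℝ),
      IsOpen D ∧ IsConnected D ∧ ¬ Bornology.IsBounded D ∧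
      (∃ γ : ℝ → ℂ, ContDiff ℝ ⊤ γ ∧ (∀ s, deriv γ s ≠ 0) ∧ Function.Injective γ ∧
        Filter.Tendsto γ (Filter.cocompact ℝ) (Filter.cocompact ℂ) ∧
        frontier D = Set.range γ) ∧
      IsSolution D u ∧
      (∀ r : ℝ, BddAbove (onCircle D u r)) ∧
      (∀ C > 0, ∀ r₀ > 0, ∃ r > r₀, Real.exp (C * r) < maxFun D u r) ∧
      (∀ r₀ : ℝ, ∃ r > r₀, Φ r < maxFun D u r) :=
  finalP hΦ

end Pool.Agent.Results.MP_b27c98_an.NoGrowthBound
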